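import Pool.Agent.Helper45.LGB.St2

set_option autoImplicit false

namespace Pool.Agent.Helper53.LGB

open Pool.Agent.Helper45.LGB Pool.Agent.Helper83.RB

open scoped commutatorElement

private lemma lcs_anti (G : Type) [Group G] {a b : ℕ} (h : a ≤ b) :
    (⊤ : Subgroup G).lowerCentralSeries b ≤ (⊤ : Subgroup G).lowerCentralSeries a :=
  Subgroup.lowerCentralSeries_antitone _ h

private lemma gm_anti (G : Type) [Group G] (a b : ℕ) (h : a ≤ b) : gm G b ≤ gm G a :=
  lcs_anti G (by omega)

private lemma gm_norm (G : Type) [Group G] (a : ℕ) : (gm G a).Normal := by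
  unfold gm; infer_instance

private lemma gm_comm (hLCC : StLCC) (G : Type) [Group G] (a b : ℕ) :
    ⁅gm G a, gm G b⁆ ≤ gm G (a + b) := by
  rcases Nat.eq_zero_or_pos a with rfl | ha
  · rw [Nat.zero_add]
    have := gm_norm G b
    exact Subgroup.commutator_le_right _ _
  · rcases Nat.eq_zero_or_pos b with rfl | hb
    · rw [Nat.add_zero]
      have := gm_norm G a
      exact Subgroup.commutator_le_left _ _
    · have h := hLCC G (a - 1) (b - 1)
      have e : a - 1 + (b - 1) + 1 = a + b - 1 := by omega
      rw [e] at h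
      exact h

/-- GMA. -/
theorem hGMA (hLCC : StLCC) : StGMA := by
  intro G _
  refine ⟨gm_comm hLCC G, gm_anti G, ?_⟩
  intro n a ω g v hg hv u
  induction u using List.reverseRecOn with
  | nil => simpa [ic] using hv
  | append_singleton u j ih =>
    have e : ic v ((u ++ [j]).map g) = ⁅ic v (u.map g), g j⁆ := by
      simp [ic, List.foldl_append]
    rw [e]
    have e2 : a + ((u ++ [j]).map ω).sum = (a + (u.map ω).sum) + ω j := by
      simp [List.sum_append]; ring
    rw [e2]
    exact gm_comm hLCC G _ _ (Subgroup.commutator_mem_commutator ih (hg j))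

end Pool.Agent.Helper53.LGB
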